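import Mathlib
import Pool.Agent.Helper21_R3.Wrap
import Pool.Agent.Helper21_R3.Asm

/-!
# Three perfect matchings of a bipartite multigraph

The edges of a bipartite multigraph with `n + 1` vertices on each side are the elements of `α`;
the edge `e` joins the row `row e` to the column `col e`. A set of edges is a common independent
set of the two partition matroids (rows, columns) if and only if `row` and `col` are injective on
it, that is, if it is a matching; the sets of size `n + 1` are the perfect matchings.
-/

set_option autoImplicit false

namespace Pool.Agent.Results.MP_33201b_co.ThreePerfectMatchings

/-- **Three perfect matchings.** Let `T 0`, `T 1`, `T 2` be three perfect matchings of a bipartite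
multigraph with `n + 1` vertices on each side. Then for every colouring `c` of the `n` indices by
`0, 1, 2` there are edges `g i ∈ T (c i)` which form a matching of size `n`: any `n` perfect
matchings with at most three distinct members have a full rainbow matching, and for all
`a₀ + a₁ + a₂ = n` there is a matching with exactly `a_j` edges chosen from `T j`. -/
theorem result {α : Type*} {R C : Type*} [Fintype R] [Fintype C] (n : ℕ)
    (hR : Fintype.card R = n + 1) (hC : Fintype.card C = n + 1)
    (row : α → R) (col : α → C) (T : Fin 3 → Finset α)
    (hT : ∀ j, (T j).card = n + 1 ∧ Set.InjOn row (T j) ∧ Set.InjOn col (T j))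
    (c : Fin n → Fin 3) :
    ∃ g : Fin n → α, (∀ i, g i ∈ T (c i)) ∧ Function.Injective (fun i => row (g i)) ∧
      Function.Injective (fun i => col (g i)) :=
  Pool.Agent.R3.H21.wrap Pool.Agent.R3.H21.fin3 n hR hC row col T hT c

end Pool.Agent.Results.MP_33201b_co.ThreePerfectMatchings
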