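import Pool.Agent.Helper24_RMI.Walk

set_option autoImplicit false

namespace Pool.Agent.Results.MP_33201b_co.TwoDistinctSets

open Finset

/-- Let `M`, `N` be two matroids and `S 0, ..., S (n-1)` a collection of `n` sets of size `n + 1`,
all independent in both matroids, which takes at most two distinct values `A`, `B` (with
arbitrary multiplicities). Then the collection has a full rainbow set which is independent in both
matroids: distinct elements `g i`, one from each member `S i`. -/
theorem result {α : Type*} (M N : Matroid α) (n : ℕ) (S : Fin n → Finset α) (A B : Finset α)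
    (hS : ∀ i, M.Indep (↑(S i) : Set α) ∧ N.Indep (↑(S i) : Set α) ∧ (S i).card = n + 1)
    (hAB : ∀ i, S i = A ∨ S i = B) :
    ∃ g : Fin n → α, Function.Injective g ∧ (∀ i, g i ∈ S i) ∧
      M.Indep (Set.range g) ∧ N.Indep (Set.range g) := by
  classical
  -- case of a constant collection
  by_cases hconst : ∃ C : Finset α, (∀ i, S i = C) ∧ (M.Indep (C : Set α) ∧ N.Indep (C : Set α) ∧
      C.card = n + 1)
  · obtain ⟨C, hC, hCM, hCN, hCc⟩ := hconst
    have hle : Fintype.card (Fin n) ≤ Fintype.card C := by
      rw [Fintype.card_fin, Fintype.card_coe]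
      omega
    obtain ⟨e⟩ := Function.Embedding.nonempty_of_card_le hle
    refine ⟨fun i => (e i : α), ?_, ?_, ?_, ?_⟩
    · intro a b hab
      exact e.injective (Subtype.ext hab)
    · intro i
      rw [hC i]
      exact (e i).2
    · refine hCM.subset ?_
      rintro z ⟨i, rfl⟩
      exact_mod_cast (e i).2
    · refine hCN.subset ?_
      rintro z ⟨i, rfl⟩
      exact_mod_cast (e i).2
  · -- both values occur
    rcases Nat.eq_zero_or_pos n with hn | hn
    · subst hn
      refine ⟨fun i => i.elim0, fun a => a.elim0, fun a => a.elim0, ?_, ?_⟩
      · rw [Set.range_eq_empty]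
        exact M.empty_indep
      · rw [Set.range_eq_empty]
        exact N.empty_indep
    · have hA : ∃ i, S i = A := by
        by_contra hcon
        push Not at hcon
        have hall : ∀ i, S i = B := fun i => (hAB i).resolve_left (hcon i)
        apply hconst
        refine ⟨B, hall, ?_⟩
        have := hS ⟨0, hn⟩
        rwa [hall ⟨0, hn⟩] at this
      have hB : ∃ i, S i = B := by
        by_contra hcon
        push Not at hcon
        have hall : ∀ i, S i = A := fun i => (hAB i).resolve_right (hcon i)
        apply hconst
        refine ⟨A, hall, ?_⟩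
        have := hS ⟨0, hn⟩
        rwa [hall ⟨0, hn⟩] at this
      obtain ⟨iA, hiA⟩ := hA
      obtain ⟨iB, hiB⟩ := hB
      have hneAB : A ≠ B := by
        intro h
        apply hconst
        refine ⟨A, fun i => ?_, ?_⟩
        · rcases hAB i with h1 | h1
          · exact h1
          · rw [h1, h]
        · have := hS iA
          rwa [hiA] at this
      have hAi := hS iA
      rw [hiA] at hAi
      have hBi := hS iB
      rw [hiB] at hBi
      set K : Finset (Fin n) := univ.filter (fun i => S i = A) with hK
      set k := K.card with hk
      have hkn : k ≤ n := by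
        have := Finset.card_le_univ K
        rwa [Fintype.card_fin] at this
      have hKc : Kᶜ.card = n - k := by rw [Finset.card_compl, Fintype.card_fin]
      have hd0 : 0 < (B \ A).card := by
        rw [Finset.card_pos, Finset.sdiff_nonempty]
        intro hsub
        exact hneAB (Finset.eq_of_subset_of_card_le hsub (by omega)).symm
      have hdn : (B \ A).card ≤ n + 1 := by
        have := Finset.card_le_card (Finset.sdiff_subset (s := B) (t := A))
        omega
      obtain ⟨R, hRM, hRN, hR1, hR2, hR3, hR4⟩ := Pool.Agent.RMI.H24.walk M N B hBi.1 hBi.2.1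
        (B \ A).card A hAi.1 hAi.2.1 (by omega) rfl ((B \ A).card - 1 - k) (by omega)
      -- cardinality of R
      have hAB1 := Finset.card_sdiff_add_card_inter B A
      have hRc : R.card = n := by
        have e1 := Finset.card_sdiff_add_card_inter R B
        have e2 : R ∩ B = (R \ A) ∪ (A ∩ B) := by
          ext z
          rw [Finset.mem_inter, Finset.mem_union, Finset.mem_sdiff, Finset.mem_inter]
          constructor
          · rintro ⟨h1, h2⟩
            by_cases hz : z ∈ A
            · exact Or.inr ⟨hz, h2⟩
            · exact Or.inl ⟨h1, hz⟩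
          · rintro (⟨h1, h2⟩ | ⟨h1, h2⟩)
            · refine ⟨h1, ?_⟩
              rcases Finset.mem_union.1 (hR2 h1) with h | h
              · exact absurd h h2
              · exact h
            · exact ⟨hR1 (Finset.mem_inter.2 ⟨h1, h2⟩), h2⟩
        have e3 : (R ∩ B).card = (R \ A).card + (A ∩ B).card := by
          rw [e2, Finset.card_union_of_disjoint]
          rw [Finset.disjoint_left]
          intro z h1 h2
          exact (Finset.mem_sdiff.1 h1).2 (Finset.mem_inter.1 h2).1
        rw [Finset.inter_comm] at hAB1
        omega
      -- choose the part of R assigned to A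
      have hRA : (R ∩ A).card = n - (R \ A).card := by
        have e1 := Finset.card_sdiff_add_card_inter R A
        omega
      have hsub : R \ B ⊆ R ∩ A := by
        intro z hz
        obtain ⟨h1, h2⟩ := Finset.mem_sdiff.1 hz
        refine Finset.mem_inter.2 ⟨h1, ?_⟩
        rcases Finset.mem_union.1 (hR2 h1) with h | h
        · exact h
        · exact absurd h h2
      obtain ⟨P, hP1, hP2, hP3⟩ := Finset.exists_subsuperset_card_eq hsub
        (n := k) (by omega) (by omega)
      have hQc : (R \ P).card = n - k := by
        rw [Finset.card_sdiff_of_subset (hP2.trans Finset.inter_subset_left)]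
        omega
      have eK : K ≃ P := Finset.equivOfCardEq (by omega)
      have eL : (Kᶜ : Finset (Fin n)) ≃ (R \ P : Finset α) := Finset.equivOfCardEq (by omega)
      have hPA : ∀ z ∈ P, z ∈ R ∧ z ∈ A := fun z hz => Finset.mem_inter.1 (hP2 hz)
      have hQB : ∀ z ∈ R \ P, z ∈ R ∧ z ∈ B := by
        intro z hz
        obtain ⟨h1, h2⟩ := Finset.mem_sdiff.1 hz
        refine ⟨h1, ?_⟩
        by_contra h
        exact h2 (hP1 (Finset.mem_sdiff.2 ⟨h1, h⟩))
      set g : Fin n → α := fun i => if h : i ∈ K then (eK ⟨i, h⟩ : α)
        else (eL ⟨i, Finset.mem_compl.2 h⟩ : α) with hg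
      have hgK : ∀ i, ∀ h : i ∈ K, g i = (eK ⟨i, h⟩ : α) := fun i h => dif_pos h
      have hgL : ∀ i, ∀ h : i ∉ K, g i = (eL ⟨i, Finset.mem_compl.2 h⟩ : α) := fun i h => dif_neg h
      have hgR : ∀ i, g i ∈ R := by
        intro i
        by_cases h : i ∈ K
        · rw [hgK i h]
          exact (hPA _ (eK ⟨i, h⟩).2).1
        · rw [hgL i h]
          exact (hQB _ (eL ⟨i, Finset.mem_compl.2 h⟩).2).1
      refine ⟨g, ?_, ?_, ?_, ?_⟩
      · intro a b hab
        by_cases ha : a ∈ K
        · by_cases hb : b ∈ K
          · rw [hgK a ha, hgK b hb] at hab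
            have := eK.injective (Subtype.ext hab)
            exact congrArg Subtype.val this
          · rw [hgK a ha, hgL b hb] at hab
            exfalso
            have h1 := (eK ⟨a, ha⟩).2
            have h2 := (Finset.mem_sdiff.1 (eL ⟨b, Finset.mem_compl.2 hb⟩).2).2
            rw [hab] at h1
            exact h2 h1
        · by_cases hb : b ∈ K
          · rw [hgL a ha, hgK b hb] at hab
            exfalso
            have h1 := (eK ⟨b, hb⟩).2
            have h2 := (Finset.mem_sdiff.1 (eL ⟨a, Finset.mem_compl.2 ha⟩).2).2
            rw [← hab] at h1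
            exact h2 h1
          · rw [hgL a ha, hgL b hb] at hab
            have := eL.injective (Subtype.ext hab)
            exact congrArg Subtype.val this
      · intro i
        by_cases h : i ∈ K
        · rw [hgK i h, (Finset.mem_filter.1 h).2]
          exact (hPA _ (eK ⟨i, h⟩).2).2
        · rw [hgL i h]
          have hSi : S i = B := by
            rcases hAB i with h1 | h1
            · exact absurd (by rw [hK]; exact Finset.mem_filter.2 ⟨Finset.mem_univ _, h1⟩) h
            · exact h1
          rw [hSi]
          exact (hQB _ (eL ⟨i, Finset.mem_compl.2 h⟩).2).2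
      · refine hRM.subset ?_
        rintro z ⟨i, rfl⟩
        exact_mod_cast hgR i
      · refine hRN.subset ?_
        rintro z ⟨i, rfl⟩
        exact_mod_cast hgR i

end Pool.Agent.Results.MP_33201b_co.TwoDistinctSets
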